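import Pool.Agent.H31.UF.Targets

/-!
# (COZ) the mean of the product vanishes, the case `D = 0`
-/

set_option autoImplicit false

open Finset Filter Topology
open Pool.Agent.H91.LF Pool.Agent.H31.UF

namespace Pool.Agent.H14.UF

/-- the second moment of a sum of products over the vertices -/
theorem sq_sum_Pv_le {d : ℕ} {S : Type} [Fintype S] (A : S → Fin d → ℤ) (M : Mean d)
    {ι : Type*} (s : Finset ι) (x : ι → ℤ) (hx : ∀ i ∈ s, ∀ j ∈ s, i ≠ j → x i ≠ x j)
    (hG : Gz M A) :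
    M.E (fun ω => (∑ i ∈ s, Pv A (x i) ω) * (∑ i ∈ s, Pv A (x i) ω)) ≤ s.card := by
  classical
  have e : (fun ω : Fin d → ℤ => (∑ i ∈ s, Pv A (x i) ω) * (∑ i ∈ s, Pv A (x i) ω)) =
      fun ω => ∑ i ∈ s, ∑ j ∈ s, Pv A (x i) ω * Pv A (x j) ω := by
    funext ω
    rw [Finset.sum_mul_sum]
  rw [e, M.E_sum s _ (fun i _ => bdd_sum s _ fun j _ => bdd_mul (bdd_Pv A _) (bdd_Pv A _))]
  have h1 : ∀ i ∈ s, M.E (fun ω => ∑ j ∈ s, Pv A (x i) ω * Pv A (x j) ω) ≤ 1 := by
    intro i hi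
    rw [M.E_sum s _ (fun j _ => bdd_mul (bdd_Pv A _) (bdd_Pv A _)),
      ← Finset.add_sum_erase s _ hi]
    have h2 : M.E (fun ω => Pv A (x i) ω * Pv A (x i) ω) ≤ 1 := by
      refine M.E_le (bdd_mul (bdd_Pv A _) (bdd_Pv A _)) ?_
      intro ω
      have h3 := abs_Pv_le A (x i) ω
      rw [abs_le] at h3
      nlinarith [h3.1, h3.2]
    have h4 : ∑ j ∈ s.erase i, M.E (fun ω => Pv A (x i) ω * Pv A (x j) ω) ≤ 0 := by
      apply Finset.sum_nonpos
      intro j hj
      rw [Finset.mem_erase] at hj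
      have h5 := hG (x i) (x j - x i) (sub_ne_zero.mpr (hx j hj.2 i hi hj.1))
      have h6 : x i + (x j - x i) = x j := by ring
      rwa [h6] at h5
    linarith
  calc _ ≤ ∑ _i ∈ s, (1 : ℝ) := Finset.sum_le_sum h1
    _ = s.card := by simp

/-- **(COZ)** -/
theorem pf_COZ (hSHF : T_SHF) : T_COZ := by
  intro d r S _ A a W c u j C M hW hI hG
  obtain ⟨hC, h0, hj⟩ := hI
  have hWC : (W : ℤ) * C ≠ 0 := mul_ne_zero (by exact_mod_cast hW.ne') hC
  have hE : ∀ κ : ℕ, M.E (Fp A a W c) =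
      M.E (fun ω => Hp A a W c j ω * Pv (A j) (a j + κ * (W * C)) ω) := by
    intro κ
    rw [← M.shift (((κ : ℤ) * W) • u) (Fp A a W c) (bdd_Fp A a W c)]
    congr 1
    funext ω
    apply hSHF d r S A a a W c (((κ : ℤ) * W) • u) j
    · intro i
      exact ⟨κ * u i, by simp only [Pi.smul_apply, smul_eq_mul]; ring⟩
    · intro i hi s
      have h1 := h0 i hi s
      rw [lf_smul]
      have h2 : lf (A i s) u = 0 := by simpa using h1
      rw [h2]
      ring
    · intro s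
      have h1 := hj s
      rw [lf_smul]
      have h2 : lf (A j s) u = C := by simpa using h1
      rw [h2]
      ring
  have key : ∀ H : ℕ, 0 < H → (H : ℝ) * (M.E (Fp A a W c)) ^ 2 ≤ 1 := by
    intro H hH
    have hH0 : (0 : ℝ) < H := by exact_mod_cast hH
    have h2 : (H : ℝ) * M.E (Fp A a W c) =
        M.E (fun ω => Hp A a W c j ω * ∑ κ ∈ Finset.range H,
          Pv (A j) (a j + (κ : ℤ) * (W * C)) ω) := by
      have e : (fun ω => Hp A a W c j ω * ∑ κ ∈ Finset.range H,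
          Pv (A j) (a j + (κ : ℤ) * (W * C)) ω) = fun ω => ∑ κ ∈ Finset.range H,
          Hp A a W c j ω * Pv (A j) (a j + (κ : ℤ) * (W * C)) ω := by
        funext ω
        rw [Finset.mul_sum]
      rw [e, M.E_sum _ _ (fun κ _ => bdd_mul (bdd_Hp A a W c j) (bdd_Pv _ _)),
        Finset.sum_congr rfl (fun κ _ => (hE κ).symm), Finset.sum_const, Finset.card_range,
        nsmul_eq_mul]
    have h3 := M.sq_E_mul_le (f := Hp A a W c j)
      (g := fun ω => ∑ κ ∈ Finset.range H, Pv (A j) (a j + (κ : ℤ) * (W * C)) ω)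
      (abs_Hp_le A a W c j) (bdd_sum _ _ fun κ _ => bdd_Pv _ _)
    have h4 := sq_sum_Pv_le (A j) M (Finset.range H) (fun κ : ℕ => a j + (κ : ℤ) * (W * C))
      (by
        intro i _ i' _ hne heq
        apply hne
        have h5 : (i : ℤ) * (W * C) = (i' : ℤ) * (W * C) := by linarith
        have h6 := mul_right_cancel₀ hWC h5
        exact_mod_cast h6) hG
    rw [← h2] at h3
    rw [Finset.card_range] at h4
    have h7 : (H : ℝ) * ((H : ℝ) * (M.E (Fp A a W c)) ^ 2) ≤ (H : ℝ) * 1 := by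
      calc (H : ℝ) * ((H : ℝ) * (M.E (Fp A a W c)) ^ 2) =
            ((H : ℝ) * M.E (Fp A a W c)) ^ 2 := by ring
        _ ≤ (H : ℝ) := h3.trans h4
        _ = (H : ℝ) * 1 := by ring
    exact le_of_mul_le_mul_left h7 hH0
  by_contra hne
  have hpos : 0 < (M.E (Fp A a W c)) ^ 2 := by positivity
  obtain ⟨n, hn⟩ := exists_nat_gt (1 / (M.E (Fp A a W c)) ^ 2)
  have h8 := key (n + 1) (Nat.succ_pos n)
  rw [div_lt_iff₀ hpos] at hn
  push_cast at h8
  nlinarith

end Pool.Agent.H14.UF
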